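import Pool.Agent.Helper95.BG.Goals

/-!
# Packet SU of MP_c578c8_lc, project BG: the strongly unique solution is local
-/

namespace Pool.Agent.Helper81.BG.PkSU

open Pool.Agent.Helper95.BG

variable {T : Type} (G : BooleanGrammar T)

/-- The language of a single symbol. -/
abbrev sym (S : G.N → Language T) (s : T ⊕ G.N) : Language T := Sum.elim (fun a => {[a]}) S s

theorem str_nil (S : G.N → Language T) : G.str S [] = 1 := rfl

theorem str_cons (S : G.N → Language T) (s : T ⊕ G.N) (τ : List (T ⊕ G.N)) :
    G.str S (s :: τ) = sym G S s * G.str S τ := by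
  unfold BooleanGrammar.str
  rw [List.map_cons, List.prod_cons]

theorem mem_str_cons {S : G.N → Language T} {s : T ⊕ G.N} {τ : List (T ⊕ G.N)} {w : List T} :
    w ∈ G.str S (s :: τ) ↔ ∃ u v, u ++ v = w ∧ u ∈ sym G S s ∧ v ∈ G.str S τ := by
  rw [str_cons, Language.mem_mul]
  constructor
  · rintro ⟨u, hu, v, hv, h⟩
    exact ⟨u, v, h, hu, hv⟩
  · rintro ⟨u, v, h, hu, hv⟩
    exact ⟨u, hu, v, hv, h⟩

theorem mem_str_single {S : G.N → Language T} {s : T ⊕ G.N} {w : List T} :
    w ∈ G.str S [s] ↔ w ∈ sym G S s := by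
  rw [str_cons, str_nil, mul_one]

theorem sym_agree {S S' : G.N → Language T} {w : List T} (h : ∀ B, w ∈ S B ↔ w ∈ S' B)
    (s : T ⊕ G.N) : w ∈ sym G S s ↔ w ∈ sym G S' s := by
  cases s with
  | inl a => exact Iff.rfl
  | inr B => exact h B

theorem str_agree {S S' : G.N → Language T} (α : List (T ⊕ G.N)) :
    ∀ {w : List T}, (∀ B, ∀ u, u <:+: w → (u ∈ S B ↔ u ∈ S' B)) →
      (w ∈ G.str S α ↔ w ∈ G.str S' α) := by
  induction α with
  | nil =>
    intro w _
    rw [str_nil, str_nil]
  | cons s τ ih =>
    intro w h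
    rw [mem_str_cons, mem_str_cons]
    have key : ∀ u v : List T, u ++ v = w →
        ((u ∈ sym G S s ↔ u ∈ sym G S' s) ∧ (v ∈ G.str S τ ↔ v ∈ G.str S' τ)) := by
      intro u v huv
      refine ⟨sym_agree G (fun B => h B u ?_) s, ih fun B x hx => h B x ?_⟩
      · exact huv ▸ (List.prefix_append u v).isInfix
      · exact hx.trans (huv ▸ (List.suffix_append u v).isInfix)
    constructor
    · rintro ⟨u, v, huv, hu, hv⟩
      exact ⟨u, v, huv, (key u v huv).1.1 hu, (key u v huv).2.1 hv⟩
    · rintro ⟨u, v, huv, hu, hv⟩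
      exact ⟨u, v, huv, (key u v huv).1.2 hu, (key u v huv).2.2 hv⟩

theorem rhs_agree {S S' : G.N → Language T} {w : List T}
    (h : ∀ B, ∀ u, u <:+: w → (u ∈ S B ↔ u ∈ S' B)) (A : G.N) :
    w ∈ G.rhs S S A ↔ w ∈ G.rhs S' S' A := by
  have key : ∀ α, (w ∈ G.str S α ↔ w ∈ G.str S' α) := fun α => str_agree G α h
  constructor
  · rintro ⟨r, hr, h1, h2⟩
    exact ⟨r, hr, fun α hα => (key α).1 (h1 α hα), fun β hβ hc => h2 β hβ ((key β).2 hc)⟩
  · rintro ⟨r, hr, h1, h2⟩
    exact ⟨r, hr, fun α hα => (key α).2 (h1 α hα), fun β hβ hc => h2 β hβ ((key β).1 hc)⟩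

/-- The factors of a word. -/
def facs (w : List T) : Set (List T) := {u | u <:+: w}

theorem facs_finite (w : List T) : (facs w).Finite := by
  have : (facs w) ⊆ {u | u ∈ (w.tails.flatMap List.inits)} := by
    intro u hu
    obtain ⟨a, b, hab⟩ := hu
    rw [Set.mem_ofPred, List.mem_flatMap]
    refine ⟨u ++ b, ?_, ?_⟩
    · rw [List.mem_tails]
      exact ⟨a, by rw [← hab, List.append_assoc]⟩
    · rw [List.mem_inits]
      exact ⟨b, rfl⟩
  exact (List.finite_toSet _).subset this

theorem facs_closed (w : List T) : ∀ v ∈ facs w, ∀ u, u <:+: v → u ∈ facs w :=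
  fun _ hv _ hu => hu.trans hv

/-- The modified solution: on the word `w` it has the values of `w'`. -/
def modi (S : G.N → Language T) (w w' : List T) (A : G.N) : Language T :=
  {u | (u = w ∧ w' ∈ S A) ∨ (u ≠ w ∧ u ∈ S A)}

theorem modi_self {S : G.N → Language T} {w w' : List T} {A : G.N} :
    w ∈ modi G S w w' A ↔ w' ∈ S A := by
  constructor
  · rintro (⟨_, h⟩ | ⟨h, _⟩)
    · exact h
    · exact absurd rfl h
  · intro h
    exact Or.inl ⟨rfl, h⟩

theorem modi_ne {S : G.N → Language T} {w w' u : List T} {A : G.N} (hu : u ≠ w) :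
    u ∈ modi G S w w' A ↔ u ∈ S A := by
  constructor
  · rintro (⟨h, _⟩ | ⟨_, h⟩)
    · exact absurd h hu
    · exact h
  · intro h
    exact Or.inr ⟨hu, h⟩

theorem str_modi {S : G.N → Language T} {w w' : List T} (h1 : G.Same (fun _ : Unit => S) w w')
    (h2 : G.Same (fun _ : Unit => S) w' w) {A : G.N} {r : List (List (T ⊕ G.N)) ×
      List (List (T ⊕ G.N))} (hr : r ∈ G.rules A) {α : List (T ⊕ G.N)} (hα : α ∈ r.1 ++ r.2) :
    ∀ σ : List (T ⊕ G.N), σ <:+ α → (w ∈ G.str (modi G S w w') σ ↔ w' ∈ G.str S σ) := by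
  have hw : 2 ≤ w.length := h1.1
  have hw' : 2 ≤ w'.length := h2.1
  have hne : ([] : List T) ≠ w := by
    rintro rfl
    simp at hw
  have short : ∀ u : List T, u.length < w.length → ∀ B, ∀ x, x <:+: u →
      (x ∈ modi G S w w' B ↔ x ∈ S B) := by
    intro u hu B x hx
    apply modi_ne
    rintro rfl
    have := hx.length_le
    omega
  intro σ
  induction σ with
  | nil =>
    intro _
    rw [str_nil, str_nil, Language.mem_one, Language.mem_one]
    constructor
    · rintro rfl
      simp at hw
    · rintro rfl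
      simp at hw'
  | cons s τ ih =>
    intro hs
    have hτ : τ <:+ α := (List.suffix_cons s τ).trans hs
    have hsub : [s] ∈ G.Sub := Or.inr (Or.inl ⟨s, rfl, A, r, hr, α, hα,
      hs.subset (List.mem_cons_self ..)⟩)
    have hsub' : τ ∈ G.Sub := Or.inl ⟨A, r, hr, α, hα, hτ⟩
    -- the empty word
    have e1 : ([] : List T) ∈ sym G (modi G S w w') s ↔ [] ∈ sym G S s :=
      sym_agree G (fun B => modi_ne G hne) s
    have e2 : ([] : List T) ∈ G.str (modi G S w w') τ ↔ [] ∈ G.str S τ :=
      str_agree G τ (short [] (by simp; omega))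
    -- the whole word in a symbol
    have e3 : w ∈ sym G (modi G S w w') s ↔ w' ∈ sym G S s := by
      cases s with
      | inl a =>
        constructor
        · intro h
          have h : w = [a] := h
          rw [h] at hw
          simp at hw
        · intro h
          have h : w' = [a] := h
          rw [h] at hw'
          simp at hw'
      | inr B => exact modi_self G
    rw [mem_str_cons, mem_str_cons]
    constructor
    · rintro ⟨u, v, huv, hu, hv⟩
      by_cases hu0 : u = []
      · subst hu0
        rw [List.nil_append] at huv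
        subst huv
        exact ⟨[], w', rfl, e1.1 hu, (ih hτ).1 hv⟩
      by_cases hv0 : v = []
      · subst hv0
        rw [List.append_nil] at huv
        subst huv
        exact ⟨w', [], List.append_nil _, e3.1 hu, e2.1 hv⟩
      have lu : 0 < u.length := List.length_pos_iff.2 hu0
      have lv : 0 < v.length := List.length_pos_iff.2 hv0
      have lw : u.length + v.length = w.length := by rw [← huv, List.length_append]
      have hu' : u ∈ sym G S s := (sym_agree G (fun B => short u (by omega) B u
        (List.infix_refl u)) s).1 hu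
      have hv' : v ∈ G.str S τ := (str_agree G τ (short v (by omega))).1 hv
      obtain ⟨u', v', _, _, h3, h4⟩ := h1.2 u v hu0 hv0 huv
      refine ⟨u', v', h3, ?_, ((h4 () τ hsub').2).1 hv'⟩
      exact (mem_str_single G).1 (((h4 () [s] hsub).1).1 ((mem_str_single G).2 hu'))
    · rintro ⟨u, v, huv, hu, hv⟩
      by_cases hu0 : u = []
      · subst hu0
        rw [List.nil_append] at huv
        subst huv
        exact ⟨[], w, rfl, e1.2 hu, (ih hτ).2 hv⟩
      by_cases hv0 : v = []
      · subst hv0
        rw [List.append_nil] at huv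
        subst huv
        exact ⟨w, [], List.append_nil _, e3.2 hu, e2.2 hv⟩
      obtain ⟨u', v', hu1, hv1, h3, h4⟩ := h2.2 u v hu0 hv0 huv
      have lu : 0 < u'.length := List.length_pos_iff.2 hu1
      have lv : 0 < v'.length := List.length_pos_iff.2 hv1
      have lw : u'.length + v'.length = w.length := by rw [← h3, List.length_append]
      have hu' : u' ∈ sym G S s :=
        (mem_str_single G).1 (((h4 () [s] hsub).1).1 ((mem_str_single G).2 hu))
      have hv' : v' ∈ G.str S τ := ((h4 () τ hsub').2).1 hv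
      exact ⟨u', v', h3, (sym_agree G (fun B => short u' (by omega) B u'
        (List.infix_refl u')) s).2 hu', (str_agree G τ (short v' (by omega))).2 hv'⟩

theorem thm (str : G_STR) : G_SU := by
  rintro T G K ⟨S, hK, hS⟩
  subst hK
  refine str T G Unit (fun _ => S) ?_ () G.start
  intro w w' h1 h2 _ A
  have sol : ∀ (x : List T) (B : G.N), x ∈ S B ↔ x ∈ G.rhs S S B := fun x B =>
    ((hS (facs x) (facs_finite x) (facs_closed x) S).2 (fun _ _ _ => Iff.rfl)) B x
      (List.infix_refl x)
  have hsol : ∀ A, ∀ u ∈ facs w, u ∈ modi G S w w' A ↔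
      u ∈ G.rhs (modi G S w w') (modi G S w w') A := by
    intro A u hu
    by_cases huw : u = w
    · subst huw
      rw [modi_self, sol w' A]
      constructor
      · rintro ⟨r, hr, h3, h4⟩
        refine ⟨r, hr, fun α hα => ?_, fun β hβ hc => h4 β hβ ?_⟩
        · exact (str_modi G h1 h2 hr (List.mem_append_left _ hα) α (List.suffix_refl α)).2 (h3 α hα)
        · exact (str_modi G h1 h2 hr (List.mem_append_right _ hβ) β (List.suffix_refl β)).1 hc
      · rintro ⟨r, hr, h3, h4⟩
        refine ⟨r, hr, fun α hα => ?_, fun β hβ hc => h4 β hβ ?_⟩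
        · exact (str_modi G h1 h2 hr (List.mem_append_left _ hα) α (List.suffix_refl α)).1 (h3 α hα)
        · exact (str_modi G h1 h2 hr (List.mem_append_right _ hβ) β (List.suffix_refl β)).2 hc
    · rw [modi_ne G huw, sol u A]
      refine rhs_agree G (fun B x hx => (modi_ne G ?_).symm) A
      rintro rfl
      exact huw (List.IsInfix.eq_of_length hu (le_antisymm (List.IsInfix.length_le hu)
        (List.IsInfix.length_le hx)))
  have h3 := (hS (facs w) (facs_finite w) (facs_closed w) (modi G S w w')).1 hsol A w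
    (List.infix_refl w)
  rw [modi_self] at h3
  exact h3.symm

end Pool.Agent.Helper81.BG.PkSU
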